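import Pool.Agent.TH90.BB.Extend

/-!
# Extensions of homologically trivial cycles: correspondences and primes

`D : ArithData` consists of the regular schemes `𝒳` which are proper and flat over `ℤ` (or over a
ring of integers), with generic fibre of pure dimension `dim 𝒳`, their Chow groups `Ch` and those of
their generic fibres `Gen` (rational coefficients, all codimensions together), the restriction `res`,
the classes `hom` on the generic fibre with trivial cohomology class, and pull-back and push-forward
for the morphisms over `ℤ` (the pairing `gs` of the structure is not used here). `D.Graded` and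
`D.Compatible` are the compatibilities with codimensions, restriction and cohomological triviality.

`F : Fibres` consists of the primes, the classes `fib` of cycles with support in the fibre over a
prime, and the classes `triv` whose restriction to this fibre is homologically trivial. `F.Stable`:
pull-back and push-forward preserve the classes `triv` (proper base change and absolute purity:
there are push-forwards for the cohomology of the regular schemes over the strict henselisations,
which is the cohomology of the closed fibres). `F.Local` collects localisation, disjointness of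
fibres, and the smoothness of almost all fibres.

`gen0 𝒳 i` is `CH^i(X)^0_ℚ`, `F.Extends 𝒳 i c` says that the class `c` in `CH^i(X)^0_ℚ` is in the image
of `CH^i(𝒳)^0_ℚ`, and `F.AllExtend 𝒳 i` is the inclusion `⊆` of the equality in the problem (the
other one is the specialisation of cycle classes at a smooth fibre). `F.ExtendsAt 𝒳 i s c`: `c`
extends to a class on `𝒳` with homologically trivial restriction to the fibre over `s`.

A span `X ← G → Y` of regular proper flat schemes with a rational coefficient defines the
correspondence `q • g_* f^*` of degree `dim Y - dim G`, and `act L` is the action of a linear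
combination of spans. By de Jong's theorem on alterations every correspondence between the generic
fibres acts as such a linear combination (not formalised).

Theorem. (1) Correspondences preserve the classes which extend. (2) If `CH^i(X)^0_ℚ` is generated by
images under correspondences of classes which extend (on any other schemes), the assertion holds for
`𝒳` and `i`. (3) It holds if `CH^i(X)^0_ℚ` is by correspondences a direct summand of the sum of the
`CH^{i+r_j}(Y_j)^0_ℚ`, and if it holds for the `𝒴_j` and `i + r_j`. (4) If correspondences of degree
zero between `𝒳` and `𝒳'` define inverse isomorphisms of `CH^i(X)^0_ℚ` and `CH^i(X')^0_ℚ`, for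
example for two models of the same variety, the assertions for `𝒳` and `𝒳'` are equivalent.
(5) A class extends if and only if for each prime `s` it extends to a class with homologically
trivial restriction to the fibre over `s`.
-/

universe u v w t

namespace Pool.Agent.Results.MP_d623ea_ag.CorrespondencesAndPrimes

open Pool.Agent.TH90.BB

theorem result (D : ArithData.{u, v, w}) (F : ArithData.Fibres.{u, v, w, t} D) (hg : D.Graded)
    (hc : D.Compatible) (hF : F.Stable) :
    (∀ (X Y : D.Model) (r i : ℤ) (L : List (D.Span X Y)), (∀ s ∈ L, s.degree = r) →
      ∀ c, F.Extends X i c → F.Extends Y (i + r) (D.act L c)) ∧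
    (∀ (X : D.Model) (i : ℤ),
      (∀ c ∈ D.gen0 X i, ∃ (n : ℕ) (Y : Fin n → D.Model) (r : Fin n → ℤ)
        (L : ∀ j, List (D.Span (Y j) X)) (b : ∀ j, D.Gen (Y j)),
        (∀ j, ∀ s ∈ L j, s.degree = r j) ∧ (∀ j, F.Extends (Y j) (i - r j) (b j)) ∧
        c = ∑ j, D.act (L j) (b j)) → F.AllExtend X i) ∧
    (∀ (X : D.Model) (i : ℤ) (n : ℕ) (Y : Fin n → D.Model) (r : Fin n → ℤ)
      (a : ∀ j, List (D.Span X (Y j))) (b : ∀ j, List (D.Span (Y j) X)),
      (∀ j, ∀ s ∈ a j, s.degree = r j) → (∀ j, ∀ s ∈ b j, s.degree = -r j) →
      (∀ c ∈ D.gen0 X i, ∑ j, D.act (b j) (D.act (a j) c) = c) →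
      (∀ j, F.AllExtend (Y j) (i + r j)) → F.AllExtend X i) ∧
    (∀ (X X' : D.Model) (i : ℤ) (a : List (D.Span X X')) (b : List (D.Span X' X)),
      (∀ s ∈ a, s.degree = 0) → (∀ s ∈ b, s.degree = 0) →
      (∀ c ∈ D.gen0 X i, D.act b (D.act a c) = c) →
      (∀ c ∈ D.gen0 X' i, D.act a (D.act b c) = c) → (F.AllExtend X i ↔ F.AllExtend X' i)) ∧
    (∀ (X : D.Model) (i : ℤ), F.Local X i → ∀ c ∈ D.gen0 X i,
      (F.Extends X i c ↔ ∀ s, F.ExtendsAt X i s c)) :=
  ⟨fun _ _ _ _ L hL _ h => h.act hg hc hF L hL,
    fun _ _ hX => ArithData.Fibres.AllExtend.of_generated hg hc hF hX,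
    fun _ _ _ Y r a b ha hb hab hY =>
      ArithData.Fibres.AllExtend.of_summand hg hc hF Y r a b ha hb hab hY,
    fun _ _ _ a b ha hb hba hab =>
      ArithData.Fibres.AllExtend.iff_of_inverse hg hc hF a b ha hb hba hab,
    fun _ _ h _ h0 => ArithData.Fibres.extends_iff h h0⟩

end Pool.Agent.Results.MP_d623ea_ag.CorrespondencesAndPrimes
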